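import Mathlib
set_option autoImplicit false
open Set Filter Topology MeasureTheory
open scoped ContDiff

namespace Pool.Agent.H747EB

/-- A radial profile in dimension `n`: `W` with `W' = V`, forcing `F` along the radius. -/
structure Prof (n : ℝ) where
  F : ℝ → ℝ
  V : ℝ → ℝ
  W : ℝ → ℝ
  t0 : ℝ
  t0_pos : 0 < t0
  F_smooth : ContDiff ℝ ∞ F
  F_left : ∀ t, t ≤ t0 → F t = 2 * n
  F_nonneg : ∀ t, 0 ≤ F t
  V_smooth : ContDiff ℝ ∞ V
  V_left : ∀ t, t ≤ t0 → V t = 2 * t
  V_pos : ∀ t, 0 < t → 0 < V t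
  W_zero : W 0 = 0
  W_deriv : ∀ t, HasDerivAt W (V t) t
  eqn : ∀ t, 0 < t → HasDerivAt V (F t - (n - 1) / t * V t) t

namespace Prof

variable {n : ℝ} (P : Prof n)

lemma W_cont : Continuous P.W := continuous_iff_continuousAt.2 fun t => (P.W_deriv t).continuousAt

lemma W_strictMonoOn : StrictMonoOn P.W (Ici 0) := by
  refine strictMonoOn_of_deriv_pos (convex_Ici 0) P.W_cont.continuousOn ?_
  intro t ht
  rw [interior_Ici] at ht
  rw [(P.W_deriv t).deriv]
  exact P.V_pos t ht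

lemma W_left {t : ℝ} (h0 : 0 ≤ t) (h : t ≤ P.t0) : P.W t = t ^ 2 := by
  have key : ∀ s ∈ Icc (0 : ℝ) P.t0, P.W s - s ^ 2 = P.W 0 - 0 ^ 2 := by
    refine constant_of_has_deriv_right_zero
      ((P.W_cont.sub (continuous_pow 2)).continuousOn) ?_
    intro s hs
    have h1 := ((P.W_deriv s).sub (hasDerivAt_pow 2 s)).hasDerivWithinAt (s := Ici s)
    refine h1.congr_deriv ?_
    rw [P.V_left s hs.2.le]; simp
  have := key t ⟨h0, h⟩
  rw [P.W_zero] at this
  linarith

/-- The flux `t ^ (n - 1) V t` has derivative `t ^ (n - 1) F t`. -/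
lemma flux_deriv {t : ℝ} (ht : 0 < t) :
    HasDerivAt (fun s => s ^ (n - 1) * P.V s) (t ^ (n - 1) * P.F t) t := by
  have h1 := (Real.hasDerivAt_rpow_const (p := n - 1) (Or.inl ht.ne')).mul (P.eqn t ht)
  refine h1.congr_deriv ?_
  have h2 : t ^ (n - 1 - 1) = t ^ (n - 1) / t := Real.rpow_sub_one ht.ne' (n - 1)
  rw [h2]
  field_simp
  ring

/-- The flux is nondecreasing. -/
lemma flux_mono {s t : ℝ} (hs : 0 < s) (hst : s ≤ t) :
    s ^ (n - 1) * P.V s ≤ t ^ (n - 1) * P.V t := by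
  have h : MonotoneOn (fun x => x ^ (n - 1) * P.V x) (Icc s t) := by
    refine monotoneOn_of_deriv_nonneg (convex_Icc s t)
      (fun x hx => (P.flux_deriv (hs.trans_le hx.1)).continuousAt.continuousWithinAt) ?_ ?_
    · intro x hx
      rw [interior_Icc] at hx
      exact (P.flux_deriv (hs.trans hx.1)).differentiableAt.differentiableWithinAt
    · intro x hx
      rw [interior_Icc] at hx
      rw [(P.flux_deriv (hs.trans hx.1)).deriv]
      exact mul_nonneg (Real.rpow_nonneg (hs.trans hx.1).le _) (P.F_nonneg x)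
  exact h ⟨le_refl _, hst⟩ ⟨hst, le_refl _⟩ hst

/-- Where the forcing vanishes the flux is constant. -/
lemma flux_const {a s : ℝ} (ha : 0 < a) (has : a ≤ s) (hF : ∀ t, a ≤ t → P.F t = 0) :
    s ^ (n - 1) * P.V s = a ^ (n - 1) * P.V a := by
  have key : ∀ x ∈ Icc a s, x ^ (n - 1) * P.V x = a ^ (n - 1) * P.V a := by
    refine constant_of_has_deriv_right_zero
      (fun x hx => (P.flux_deriv (ha.trans_le hx.1)).continuousAt.continuousWithinAt) ?_
    intro x hx
    have h1 := (P.flux_deriv (ha.trans_le hx.1)).hasDerivWithinAt (s := Ici x)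
    rw [hF x hx.1, mul_zero] at h1
    exact h1
  exact key s ⟨has, le_refl _⟩

end Prof

end Pool.Agent.H747EB
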