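import Pool.Agent.H747EB.B0
set_option autoImplicit false
open Set Filter Topology MeasureTheory
open scoped ContDiff

namespace Pool.Agent.H747EB

theorem exists_prof {n : ℝ} (hn : 1 < n) {F : ℝ → ℝ} (hF : ContDiff ℝ ∞ F) {t0 : ℝ}
    (h0 : 0 < t0) (hl : ∀ t, t ≤ t0 → F t = 2 * n) (hpos : ∀ t, 0 ≤ F t) :
    ∃ P : Prof n, P.F = F ∧ P.t0 = t0 := by
  let G : ℝ → ℝ := fun s => (max s t0) ^ (n - 1) * (F s - 2 * n)
  have hG : Continuous G := by
    refine Continuous.mul ?_ (hF.continuous.sub continuous_const)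
    exact (continuous_id.max continuous_const).rpow_const fun x =>
      Or.inl (lt_of_lt_of_le h0 (le_max_right _ _)).ne'
  have hG0 : ∀ s, s ≤ t0 → G s = 0 := by
    intro s hs
    change (max s t0) ^ (n - 1) * (F s - 2 * n) = 0
    rw [hl s hs, sub_self, mul_zero]
  have hG1 : ∀ s, 0 < s → G s = s ^ (n - 1) * (F s - 2 * n) := by
    intro s _
    rcases le_total s t0 with h | h
    · rw [hG0 s h, hl s h, sub_self, mul_zero]
    · change (max s t0) ^ (n - 1) * (F s - 2 * n) = _
      rw [max_eq_left h]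
  let J : ℝ → ℝ := fun t => ∫ s in t0..t, G s
  have hJ : ∀ t, HasDerivAt J (G t) t := fun t =>
    intervalIntegral.integral_hasDerivAt_right (hG.intervalIntegrable _ _)
      (hG.stronglyMeasurableAtFilter _ _) hG.continuousAt
  have hJ0 : ∀ t, t ≤ t0 → J t = 0 := by
    intro t ht
    change ∫ s in t0..t, G s = 0
    have h1 : ∫ s in t0..t, G s = ∫ s in t0..t, (0 : ℝ) := by
      refine intervalIntegral.integral_congr fun s hs => ?_
      rw [uIcc_of_ge ht] at hs
      exact hG0 s hs.2
    rw [h1]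
    simp
  have hGs : ContDiff ℝ ∞ G := by
    rw [contDiff_iff_contDiffAt]
    intro t
    rcases lt_or_ge t t0 with h | h
    · have h1 : G =ᶠ[𝓝 t] fun _ => 0 := by
        filter_upwards [Iio_mem_nhds h] with s hs
        exact hG0 s (le_of_lt hs)
      exact contDiffAt_const.congr_of_eventuallyEq h1
    · have ht : 0 < t := h0.trans_le h
      have h1 : G =ᶠ[𝓝 t] fun s => s ^ (n - 1) * (F s - 2 * n) := by
        filter_upwards [Ioi_mem_nhds ht] with s hs
        exact hG1 s hs
      have h2 : ContDiffAt ℝ ∞ (fun s : ℝ => s ^ (n - 1)) t :=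
        Real.contDiffAt_rpow_const_of_ne ht.ne'
      exact (h2.mul (hF.contDiffAt.sub contDiffAt_const)).congr_of_eventuallyEq h1
  have hJs : ContDiff ℝ ∞ J := by
    rw [contDiff_infty_iff_deriv]
    refine ⟨fun t => (hJ t).differentiableAt, ?_⟩
    have : deriv J = G := funext fun t => (hJ t).deriv
    rw [this]
    exact hGs
  let V : ℝ → ℝ := fun t => 2 * t + t ^ (1 - n) * J t
  have hVl : ∀ t, t ≤ t0 → V t = 2 * t := by
    intro t ht
    change 2 * t + t ^ (1 - n) * J t = 2 * t
    rw [hJ0 t ht, mul_zero, add_zero]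
  have hVs : ContDiff ℝ ∞ V := by
    rw [contDiff_iff_contDiffAt]
    intro t
    rcases lt_or_ge t t0 with h | h
    · have h1 : V =ᶠ[𝓝 t] fun s => 2 * s := by
        filter_upwards [Iio_mem_nhds h] with s hs
        exact hVl s (le_of_lt hs)
      have h2 : ContDiffAt ℝ ∞ (fun s : ℝ => 2 * s) t := by fun_prop
      exact h2.congr_of_eventuallyEq h1
    · have ht : t ≠ 0 := (h0.trans_le h).ne'
      have h1 : ContDiffAt ℝ ∞ (fun s : ℝ => 2 * s) t := by fun_prop
      have h2 : ContDiffAt ℝ ∞ (fun s : ℝ => s ^ (1 - n)) t :=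
        Real.contDiffAt_rpow_const_of_ne ht
      exact h1.add (h2.mul hJs.contDiffAt)
  have heqn : ∀ t, 0 < t → HasDerivAt V (F t - (n - 1) / t * V t) t := by
    intro t ht
    have h1 := ((hasDerivAt_id t).const_mul 2).add
      ((Real.hasDerivAt_rpow_const (p := 1 - n) (Or.inl ht.ne')).mul (hJ t))
    refine h1.congr_deriv ?_
    have h2 : t ^ (1 - n - 1) = t ^ (1 - n) / t := Real.rpow_sub_one ht.ne' (1 - n)
    have h3 : t ^ (1 - n) * t ^ (n - 1) = 1 := by
      rw [← Real.rpow_add ht]
      rw [show (1 - n) + (n - 1) = 0 by ring, Real.rpow_zero]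
    rw [hG1 t ht, h2]
    change 2 * 1 + ((1 - n) * (t ^ (1 - n) / t) * J t + t ^ (1 - n) * (t ^ (n - 1) * (F t - 2 * n))) =
      F t - (n - 1) / t * (2 * t + t ^ (1 - n) * J t)
    rw [← mul_assoc (t ^ (1 - n)), h3]
    field_simp
    ring
  have hVp : ∀ t, 0 < t → 0 < V t := by
    intro t ht
    rcases le_total t t0 with h | h
    · rw [hVl t h]
      linarith
    · have hfd : ∀ s, 0 < s →
          HasDerivAt (fun x => x ^ (n - 1) * V x) (s ^ (n - 1) * F s) s := by
        intro s hs
        have h1 := (Real.hasDerivAt_rpow_const (p := n - 1) (Or.inl hs.ne')).mul (heqn s hs)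
        refine h1.congr_deriv ?_
        have h2 : s ^ (n - 1 - 1) = s ^ (n - 1) / s := Real.rpow_sub_one hs.ne' (n - 1)
        rw [h2]
        field_simp
        ring
      have hm : MonotoneOn (fun x => x ^ (n - 1) * V x) (Icc t0 t) := by
        refine monotoneOn_of_deriv_nonneg (convex_Icc t0 t)
          (fun x hx => (hfd x (h0.trans_le hx.1)).continuousAt.continuousWithinAt) ?_ ?_
        · intro x hx
          rw [interior_Icc] at hx
          exact (hfd x (h0.trans hx.1)).differentiableAt.differentiableWithinAt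
        · intro x hx
          rw [interior_Icc] at hx
          rw [(hfd x (h0.trans hx.1)).deriv]
          exact mul_nonneg (Real.rpow_nonneg (h0.trans hx.1).le _) (hpos x)
      have h1 : t0 ^ (n - 1) * V t0 ≤ t ^ (n - 1) * V t := hm ⟨le_refl _, h⟩ ⟨h, le_refl _⟩ h
      rw [hVl t0 le_rfl] at h1
      have h2 : 0 < t0 ^ (n - 1) * (2 * t0) := by positivity
      have h3 : 0 < t ^ (n - 1) := Real.rpow_pos_of_pos ht _
      exact pos_of_mul_pos_right (h2.trans_le h1) h3.le
  let W : ℝ → ℝ := fun t => ∫ s in (0 : ℝ)..t, V s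
  have hVc : Continuous V := hVs.continuous
  exact ⟨{
    F := F
    V := V
    W := W
    t0 := t0
    t0_pos := h0
    F_smooth := hF
    F_left := hl
    F_nonneg := hpos
    V_smooth := hVs
    V_left := hVl
    V_pos := hVp
    W_zero := intervalIntegral.integral_same
    W_deriv := fun t => intervalIntegral.integral_hasDerivAt_right (hVc.intervalIntegrable _ _)
      (hVc.stronglyMeasurableAtFilter _ _) hVc.continuousAt
    eqn := heqn }, rfl, rfl⟩

end Pool.Agent.H747EB
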