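import Pool.Agent.H747EB.B0
set_option autoImplicit false
open Set Filter Topology MeasureTheory
open scoped ContDiff

namespace Pool.Agent.H747EB

/-- EB-INV: a smooth strictly increasing inverse of a profile on a compact interval. -/
theorem exists_inverse {n : ℝ} (P : Prof n) {t1 T : ℝ} (h1 : 0 < t1) (h1' : t1 ≤ P.t0)
    (hT : t1 ≤ T) :
    ∃ ρ : ℝ → ℝ, ContDiff ℝ ∞ ρ ∧ StrictMono ρ ∧ ∀ t ∈ Icc t1 T, ρ (P.W t) = t := by
  let v : ℝ → ℝ := fun t => P.V t + Real.smoothTransition (1 - t / t1) * (2 + t ^ 2) +
    Real.smoothTransition (t - T)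
  have hvc : Continuous v := by
    have e1 : Continuous P.V := P.V_smooth.continuous
    have e2 : Continuous fun t : ℝ => Real.smoothTransition (1 - t / t1) :=
      Real.smoothTransition.continuous.comp (by fun_prop)
    have e3 : Continuous fun t : ℝ => Real.smoothTransition (t - T) :=
      Real.smoothTransition.continuous.comp (by fun_prop)
    exact (e1.add (e2.mul (by fun_prop))).add e3
  have hneg : ∀ t, t ≤ 0 → 1 ≤ v t := by
    intro t ht
    have e1 : P.V t = 2 * t := P.V_left t (ht.trans P.t0_pos.le)
    have e2 : Real.smoothTransition (1 - t / t1) = 1 := by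
      apply Real.smoothTransition.one_of_one_le
      have : t / t1 ≤ 0 := div_nonpos_of_nonpos_of_nonneg ht h1.le
      linarith
    have e3 := Real.smoothTransition.nonneg (t - T)
    change 1 ≤ P.V t + Real.smoothTransition (1 - t / t1) * (2 + t ^ 2) +
      Real.smoothTransition (t - T)
    rw [e1, e2]
    nlinarith [sq_nonneg (t + 1)]
  have hge : ∀ t, 0 < t → P.V t + Real.smoothTransition (t - T) ≤ v t := by
    intro t _
    have e2 := Real.smoothTransition.nonneg (1 - t / t1)
    change _ ≤ P.V t + Real.smoothTransition (1 - t / t1) * (2 + t ^ 2) +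
      Real.smoothTransition (t - T)
    have : 0 ≤ Real.smoothTransition (1 - t / t1) * (2 + t ^ 2) := by positivity
    linarith
  have hpos : ∀ t, 0 < v t := by
    intro t
    rcases le_or_gt t 0 with h | h
    · linarith [hneg t h]
    · linarith [hge t h, P.V_pos t h, Real.smoothTransition.nonneg (t - T)]
  have hbig : ∀ t, T + 1 ≤ t → 1 ≤ v t := by
    intro t ht
    have h0 : 0 < t := by linarith
    have e1 : Real.smoothTransition (t - T) = 1 :=
      Real.smoothTransition.one_of_one_le (by linarith)
    have e2 := hge t h0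
    rw [e1] at e2
    linarith [P.V_pos t h0]
  have hmid : ∀ t ∈ Icc t1 T, v t = P.V t := by
    intro t ht
    have e1 : Real.smoothTransition (1 - t / t1) = 0 := by
      apply Real.smoothTransition.zero_of_nonpos
      have : 1 ≤ t / t1 := (one_le_div h1).2 ht.1
      linarith
    have e2 : Real.smoothTransition (t - T) = 0 :=
      Real.smoothTransition.zero_of_nonpos (by linarith [ht.2])
    change P.V t + Real.smoothTransition (1 - t / t1) * (2 + t ^ 2) +
      Real.smoothTransition (t - T) = P.V t
    rw [e1, e2]; ring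
  let w : ℝ → ℝ := fun t => P.W t1 + ∫ s in t1..t, v s
  have hw : ∀ t, HasDerivAt w (v t) t := fun t =>
    ((hvc.integral_hasStrictDerivAt t1 t).hasDerivAt).const_add _
  have hwc : Continuous w := continuous_iff_continuousAt.2 fun t => (hw t).continuousAt
  have hwd : deriv w = v := funext fun t => (hw t).deriv
  have hmono : StrictMono w := strictMono_of_deriv_pos fun t => by rw [hwd]; exact hpos t
  have hvs : ContDiff ℝ ∞ v := by
    have e1 : ContDiff ℝ ∞ P.V := P.V_smooth
    have e2 : ContDiff ℝ ∞ fun t : ℝ => Real.smoothTransition (1 - t / t1) :=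
      Real.smoothTransition.contDiff.comp (contDiff_const.sub (contDiff_id.div_const t1))
    have e3 : ContDiff ℝ ∞ fun t : ℝ => Real.smoothTransition (t - T) :=
      Real.smoothTransition.contDiff.comp (contDiff_id.sub contDiff_const)
    exact (e1.add (e2.mul (contDiff_const.add (contDiff_id.pow 2)))).add e3
  have hw1 : ContDiff ℝ ∞ w := by
    rw [contDiff_infty_iff_deriv]
    exact ⟨fun t => (hw t).differentiableAt, by rw [hwd]; exact hvs⟩
  have htop : Tendsto w atTop atTop := by
    have e1 : Tendsto (fun t : ℝ => t - (T + 1) + w (T + 1)) atTop atTop :=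
      tendsto_atTop_add_const_right _ _ (tendsto_atTop_add_const_right _ _ tendsto_id)
    refine tendsto_atTop_mono' atTop ?_ e1
    filter_upwards [eventually_ge_atTop (T + 1)] with t ht
    have e2 := (convex_Ici (T + 1)).mul_sub_le_image_sub_of_le_deriv hwc.continuousOn
      (fun x _ => (hw x).differentiableAt.differentiableWithinAt) (C := 1)
      (fun x hx => by
        rw [interior_Ici] at hx
        rw [hwd]; exact hbig x (le_of_lt hx)) (T + 1) self_mem_Ici t ht ht
    linarith
  have hbot : Tendsto w atBot atBot := by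
    have e1 : Tendsto (fun t : ℝ => t + w 0) atBot atBot :=
      tendsto_atBot_add_const_right _ _ tendsto_id
    refine tendsto_atBot_mono' atBot ?_ e1
    filter_upwards [eventually_le_atBot (0 : ℝ)] with t ht
    have e2 := (convex_Iic (0 : ℝ)).mul_sub_le_image_sub_of_le_deriv hwc.continuousOn
      (fun x _ => (hw x).differentiableAt.differentiableWithinAt) (C := 1)
      (fun x hx => by
        rw [interior_Iic] at hx
        rw [hwd]; exact hneg x (le_of_lt hx)) t ht 0 self_mem_Iic ht
    linarith
  have hsurj : Function.Surjective w := hwc.surjective htop hbot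
  let e : ℝ ≃o ℝ := StrictMono.orderIsoOfSurjective w hmono hsurj
  have heq : ∀ t ∈ Icc t1 T, w t = P.W t := by
    have key : ∀ t ∈ Icc t1 T, w t - P.W t = w t1 - P.W t1 := by
      refine constant_of_has_deriv_right_zero ((hwc.sub P.W_cont).continuousOn) ?_
      intro s hs
      have h2 := ((hw s).sub (P.W_deriv s)).hasDerivWithinAt (s := Ici s)
      refine h2.congr_deriv ?_
      rw [hmid s ⟨hs.1, hs.2.le⟩, sub_self]
    intro t ht
    have h2 := key t ht
    have h3 : w t1 = P.W t1 := by
      change P.W t1 + ∫ s in t1..t1, v s = P.W t1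
      rw [intervalIntegral.integral_same, add_zero]
    rw [h3] at h2
    linarith
  refine ⟨e.symm, ?_, e.symm.strictMono, ?_⟩
  · have h2 : ContDiff ℝ ∞ (e.toHomeomorph.symm : ℝ → ℝ) :=
      e.toHomeomorph.contDiff_symm_deriv (f' := v) (fun x => (hpos x).ne') hw hw1
    exact h2
  · intro t ht
    rw [← heq t ht]
    exact e.symm_apply_apply t

end Pool.Agent.H747EB
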