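import Pool.Agent.H747EB.B1

/-!
# The profile with a late kick
-/

set_option autoImplicit false
open Set Filter Topology MeasureTheory
open scoped ContDiff

namespace Pool.Agent.H747EB

/-- Functions with a nonpositive derivative decrease. -/
lemma kick_anti {f f' : ℝ → ℝ} {a b : ℝ} (hab : a ≤ b) (hc : Continuous f)
    (hd : ∀ x, a < x → x < b → HasDerivAt f (f' x) x) (h : ∀ x, a < x → x < b → f' x ≤ 0) :
    f b ≤ f a := by
  have h1 : AntitoneOn f (Icc a b) := by
    refine antitoneOn_of_deriv_nonpos (convex_Icc a b) hc.continuousOn ?_ ?_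
    · intro x hx
      rw [interior_Icc] at hx
      exact (hd x hx.1 hx.2).differentiableAt.differentiableWithinAt
    · intro x hx
      rw [interior_Icc] at hx
      rw [(hd x hx.1 hx.2).deriv]
      exact h x hx.1 hx.2
  exact h1 ⟨le_refl _, hab⟩ ⟨hab, le_refl _⟩ hab

/-- EB-P1: the late kick. -/
theorem exists_kick {n : ℝ} (hn : 1 < n) {M : ℝ} (hM : 1 ≤ M) :
    ∃ P : Prof n, (∀ t, P.F t ≤ 2 * n) ∧ (∀ t, M + 1 ≤ t → P.F t = 0) ∧ P.W (M + 1) ≤ 1 ∧
      (1 / 4 : ℝ) ^ (n - 1) / 2 * (M + 1) ≤ P.W (2 * M + 2) := by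
  have hn0 : 0 < n := one_pos.trans hn
  have hM0 : 0 < M := one_pos.trans_le hM
  obtain ⟨δ, hδdef⟩ : ∃ δ : ℝ, δ = 1 / (8 * n * (M + 1)) := ⟨_, rfl⟩
  have hden : 0 < 8 * n * (M + 1) := by positivity
  have hδ : 0 < δ := by rw [hδdef]; positivity
  have hδ1 : δ * (8 * n * (M + 1)) = 1 := by
    rw [hδdef, one_div, inv_mul_cancel₀ hden.ne']
  have hδ2 : 2 * δ < 1 := by
    have h1 : δ * 16 < 1 := by
      rw [← hδ1]
      refine mul_lt_mul_of_pos_left ?_ hδ
      nlinarith
    linarith
  let F : ℝ → ℝ := fun t => 2 * n * Real.smoothTransition (2 - t / δ) +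
    Real.smoothTransition (4 * (t - M)) * Real.smoothTransition (4 * (M + 1 - t))
  have hFdef : ∀ t, F t = 2 * n * Real.smoothTransition (2 - t / δ) +
    Real.smoothTransition (4 * (t - M)) * Real.smoothTransition (4 * (M + 1 - t)) := fun _ => rfl
  have hFs : ContDiff ℝ ∞ F := by
    have h1 : ContDiff ℝ ∞ (fun t : ℝ => Real.smoothTransition (2 - t / δ)) :=
      Real.smoothTransition.contDiff.comp (contDiff_const.sub (contDiff_id.div_const δ))
    have h2 : ContDiff ℝ ∞ (fun t : ℝ => Real.smoothTransition (4 * (t - M))) :=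
      Real.smoothTransition.contDiff.comp (contDiff_const.mul (contDiff_id.sub contDiff_const))
    have h3 : ContDiff ℝ ∞ (fun t : ℝ => Real.smoothTransition (4 * (M + 1 - t))) :=
      Real.smoothTransition.contDiff.comp (contDiff_const.mul (contDiff_const.sub contDiff_id))
    exact (contDiff_const.mul h1).add (h2.mul h3)
  have z1 : ∀ t, 2 * δ ≤ t → Real.smoothTransition (2 - t / δ) = 0 := by
    intro t ht
    refine Real.smoothTransition.zero_of_nonpos ?_
    have h1 : 2 ≤ t / δ := by rwa [le_div_iff₀ hδ]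
    linarith
  have z2 : ∀ t, t ≤ M → Real.smoothTransition (4 * (t - M)) = 0 := by
    intro t ht
    exact Real.smoothTransition.zero_of_nonpos (by linarith)
  have z3 : ∀ t, M + 1 ≤ t → Real.smoothTransition (4 * (M + 1 - t)) = 0 := by
    intro t ht
    exact Real.smoothTransition.zero_of_nonpos (by linarith)
  have hF0 : ∀ t, 0 ≤ F t := by
    intro t
    rw [hFdef]
    have h1 := Real.smoothTransition.nonneg (2 - t / δ)
    have h2 := Real.smoothTransition.nonneg (4 * (t - M))
    have h3 := Real.smoothTransition.nonneg (4 * (M + 1 - t))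
    positivity
  have hFl : ∀ t, t ≤ δ → F t = 2 * n := by
    intro t ht
    have h1 : t / δ ≤ 1 := by rwa [div_le_one hδ]
    rw [hFdef, z2 t (by linarith), Real.smoothTransition.one_of_one_le (by linarith)]
    ring
  have hFM : ∀ t, M ≤ t → F t ≤ 1 := by
    intro t ht
    rw [hFdef, z1 t (by linarith), mul_zero, zero_add]
    exact mul_le_one₀ (Real.smoothTransition.le_one _) (Real.smoothTransition.nonneg _)
      (Real.smoothTransition.le_one _)
  have hFle : ∀ t, F t ≤ 2 * n := by
    intro t
    rcases le_total t M with h | h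
    · rw [hFdef, z2 t h, zero_mul, add_zero]
      have h1 := Real.smoothTransition.le_one (2 - t / δ)
      nlinarith
    · have h1 := hFM t h
      linarith
  have hFz : ∀ t, 2 * δ ≤ t → t ≤ M → F t = 0 := by
    intro t h1 h2
    rw [hFdef, z1 t h1, z2 t h2]
    ring
  have hFr : ∀ t, M + 1 ≤ t → F t = 0 := by
    intro t ht
    rw [hFdef, z1 t (by linarith), z3 t ht]
    ring
  have hF1 : ∀ t, M + 1 / 4 ≤ t → t ≤ M + 3 / 4 → F t = 1 := by
    intro t h1 h2
    rw [hFdef, z1 t (by linarith), Real.smoothTransition.one_of_one_le (by linarith),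
      Real.smoothTransition.one_of_one_le (by linarith)]
    ring
  obtain ⟨P, hPF, hPt⟩ := exists_prof hn hFs hδ hFl hF0
  have hVc : Continuous P.V := P.V_smooth.continuous
  have hWc : Continuous P.W := P.W_cont
  have hV0 : P.V 0 = 0 := by
    rw [P.V_left 0 P.t0_pos.le, mul_zero]
  have hVnn : ∀ t, 0 ≤ t → 0 ≤ P.V t := by
    intro t ht
    rcases ht.eq_or_lt with h | h
    · rw [← h, hV0]
    · exact (P.V_pos t h).le
  have hdrag : ∀ t, 0 < t → 0 ≤ (n - 1) / t * P.V t := fun t ht =>
    mul_nonneg (div_nonneg (by linarith) ht.le) (P.V_pos t ht).le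
  have hFt : ∀ t, P.F t = F t := fun t => by rw [hPF]
  -- the velocity
  have s1 : ∀ t, 0 ≤ t → P.V t ≤ 2 * n * t := by
    intro t ht
    have h1 := kick_anti (f := fun x => P.V x - 2 * n * x)
      (f' := fun x => (P.F x - (n - 1) / x * P.V x) - 2 * n * 1) ht
      (hVc.sub (continuous_const.mul continuous_id))
      (fun x hx _ => (P.eqn x hx).sub ((hasDerivAt_id x).const_mul (2 * n)))
      (fun x hx _ => by
        have h2 := hdrag x hx
        have h3 := hFle x
        rw [hFt x]
        linarith)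
    simp only [hV0] at h1
    linarith
  have s2 : ∀ t, 0 ≤ t → t ≤ M → P.V t ≤ 4 * n * δ := by
    intro t h0 h1
    rcases le_total t (2 * δ) with h2 | h2
    · refine (s1 t h0).trans ?_
      have h3 : 2 * n * t ≤ 2 * n * (2 * δ) := mul_le_mul_of_nonneg_left h2 (by linarith)
      linarith
    · have h3 := kick_anti (f := P.V) (f' := fun x => P.F x - (n - 1) / x * P.V x) h2 hVc
        (fun x hx _ => P.eqn x (by linarith))
        (fun x hx hx' => by
          have h4 := hdrag x (by linarith)
          have h5 := hFz x hx.le (by linarith)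
          rw [hFt x, h5]
          linarith)
      have h4 := s1 (2 * δ) (by linarith)
      linarith
  have s3 : ∀ t, M ≤ t → P.V t ≤ 4 * n * δ + (t - M) := by
    intro t ht
    have h1 := kick_anti (f := fun x => P.V x - x)
      (f' := fun x => (P.F x - (n - 1) / x * P.V x) - 1) ht
      (hVc.sub continuous_id)
      (fun x hx _ => (P.eqn x (by linarith)).sub (hasDerivAt_id x))
      (fun x hx _ => by
        have h2 := hdrag x (by linarith)
        have h3 := hFM x hx.le
        rw [hFt x]
        linarith)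
    have h2 := s2 M hM0.le le_rfl
    linarith
  -- the position
  have s4 : P.W M ≤ 4 * n * δ * M := by
    have h1 := kick_anti (f := fun x => P.W x - 4 * n * δ * x)
      (f' := fun x => P.V x - 4 * n * δ * 1) hM0.le
      (hWc.sub (continuous_const.mul continuous_id))
      (fun x _ _ => (P.W_deriv x).sub ((hasDerivAt_id x).const_mul (4 * n * δ)))
      (fun x hx hx' => by
        have h2 := s2 x hx.le hx'.le
        linarith)
    simp only [P.W_zero] at h1
    linarith
  have s5 : P.W (M + 1) ≤ 1 := by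
    have h1 := kick_anti (f := fun x => P.W x - 4 * n * δ * x - (x - M) ^ 2 / 2)
      (f' := fun x => P.V x - 4 * n * δ * 1 - 2 * (x - M) / 2) (a := M) (b := M + 1)
      (by linarith)
      ((hWc.sub (continuous_const.mul continuous_id)).sub
        (((continuous_id.sub continuous_const).pow 2).div_const 2))
      (fun x _ _ => by
        have h2 : HasDerivAt (fun y : ℝ => (y - M) ^ 2 / 2) (2 * (x - M) / 2) x := by
          have h3 := (((hasDerivAt_id x).sub_const M).pow 2).div_const 2
          refine h3.congr_deriv ?_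
          simp
        exact ((P.W_deriv x).sub ((hasDerivAt_id x).const_mul (4 * n * δ))).sub h2)
      (fun x hx hx' => by
        have h2 := s3 x hx.le
        linarith)
    have h2 : 4 * n * δ * (M + 1) = 1 / 2 := by
      have h3 : 4 * n * δ * (M + 1) = δ * (8 * n * (M + 1)) / 2 := by ring
      rw [h3, hδ1]
    have h3 : (M + 1 - M) ^ 2 / 2 = (1 : ℝ) / 2 := by ring
    have h4 : (M - M) ^ 2 / 2 = (0 : ℝ) := by ring
    rw [h3, h4] at h1
    linarith
  -- the flux
  have f1 : ∀ t, M + 1 ≤ t → M ^ (n - 1) / 2 ≤ t ^ (n - 1) * P.V t := by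
    intro t ht
    have hmono : MonotoneOn (fun x : ℝ => x ^ (n - 1) * P.V x - M ^ (n - 1) * x)
        (Icc (M + 1 / 4) (M + 3 / 4)) := by
      have hder : ∀ x : ℝ, 0 < x → HasDerivAt (fun x : ℝ => x ^ (n - 1) * P.V x -
          M ^ (n - 1) * x) (x ^ (n - 1) * P.F x - M ^ (n - 1) * 1) x := fun x hx =>
        (P.flux_deriv hx).sub ((hasDerivAt_id x).const_mul (M ^ (n - 1)))
      refine monotoneOn_of_deriv_nonneg (convex_Icc _ _) ?_ ?_ ?_
      · intro x hx
        exact (hder x (by linarith [hx.1])).continuousAt.continuousWithinAt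
      · intro x hx
        rw [interior_Icc] at hx
        exact (hder x (by linarith [hx.1])).differentiableAt.differentiableWithinAt
      · intro x hx
        rw [interior_Icc] at hx
        rw [(hder x (by linarith [hx.1])).deriv, hFt x, hF1 x hx.1.le hx.2.le]
        have h2 : M ^ (n - 1) ≤ x ^ (n - 1) :=
          Real.rpow_le_rpow hM0.le (by linarith [hx.1]) (by linarith)
        linarith
    have h1 := hmono ⟨le_refl _, by linarith⟩ ⟨by linarith, le_refl _⟩
      (by linarith : M + 1 / 4 ≤ M + 3 / 4)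
    simp only at h1
    have h2 : 0 ≤ (M + 1 / 4) ^ (n - 1) * P.V (M + 1 / 4) :=
      mul_nonneg (Real.rpow_nonneg (by linarith) _) (hVnn _ (by linarith))
    have h3 : (M + 3 / 4) ^ (n - 1) * P.V (M + 3 / 4) ≤ t ^ (n - 1) * P.V t :=
      P.flux_mono (by linarith) (by linarith)
    have h4 : M ^ (n - 1) * (M + 3 / 4) - M ^ (n - 1) * (M + 1 / 4) = M ^ (n - 1) / 2 := by ring
    linarith
  have f2 : ∀ t, M + 1 ≤ t → t ≤ 2 * M + 2 → (1 / 4 : ℝ) ^ (n - 1) / 2 ≤ P.V t := by
    intro t h1 h2
    have ht : 0 < t := by linarith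
    have h3 : 0 < t ^ (n - 1) := Real.rpow_pos_of_pos ht _
    refine le_of_mul_le_mul_left ?_ h3
    refine le_trans ?_ (f1 t h1)
    have h4 : t ^ (n - 1) * ((1 / 4 : ℝ) ^ (n - 1) / 2) = (t * (1 / 4)) ^ (n - 1) / 2 := by
      rw [Real.mul_rpow ht.le (by norm_num)]
      ring
    rw [h4]
    have h5 : (t * (1 / 4)) ^ (n - 1) ≤ M ^ (n - 1) :=
      Real.rpow_le_rpow (by linarith) (by linarith) (by linarith)
    linarith
  have f3 : (1 / 4 : ℝ) ^ (n - 1) / 2 * (M + 1) ≤ P.W (2 * M + 2) := by
    obtain ⟨κ, hκ⟩ : ∃ κ : ℝ, κ = (1 / 4 : ℝ) ^ (n - 1) / 2 := ⟨_, rfl⟩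
    rw [← hκ] at f2 ⊢
    have h1 := kick_anti (f := fun x => κ * x - P.W x) (f' := fun x => κ * 1 - P.V x)
      (a := M + 1) (b := 2 * M + 2) (by linarith)
      ((continuous_const.mul continuous_id).sub hWc)
      (fun x _ _ => ((hasDerivAt_id x).const_mul κ).sub (P.W_deriv x))
      (fun x hx hx' => by
        have h2 := f2 x hx.le hx'.le
        linarith)
    have h2 : 0 ≤ P.W (M + 1) := by
      have h3 := kick_anti (f := fun x => -P.W x) (f' := fun x => -P.V x)
        (a := 0) (b := M + 1) (by linarith) hWc.neg (fun x _ _ => (P.W_deriv x).neg)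
        (fun x hx _ => by
          have h2 := hVnn x hx.le
          linarith)
      simp only [P.W_zero] at h3
      linarith
    have h3 : κ * (2 * M + 2) - κ * (M + 1) = κ * (M + 1) := by ring
    linarith
  refine ⟨P, fun t => ?_, fun t ht => ?_, s5, f3⟩
  · rw [hFt]
    exact hFle t
  · rw [hFt]
    exact hFr t ht

end Pool.Agent.H747EB
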