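import Pool.Agent.H747EB.B1

/-! Job EB-P2 (helper459). -/

set_option autoImplicit false
open Set Filter Topology MeasureTheory
open scoped ContDiff

namespace Pool.Agent.H747EB


/-- EB-P2: the early core. -/
theorem exists_core {n : ℝ} (hn : 1 < n) :
    ∃ P : Prof n, (∀ t, t ≤ 1 → P.F t = 2 * n) ∧ (∀ t, 2 ≤ t → P.F t = 0) ∧ P.W 1 = 1 ∧
      ∀ c : ℝ, 0 < c → ∃ M : ℝ, 1 ≤ M ∧ P.W (2 * M + 2) < c * (M + 1) := by
  have hF : ContDiff ℝ ∞ (fun t : ℝ => 2 * n * Real.smoothTransition (2 - t)) :=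
    contDiff_const.mul (Real.smoothTransition.contDiff.comp (contDiff_const.sub contDiff_id))
  have hF1 : ∀ t : ℝ, t ≤ 1 → 2 * n * Real.smoothTransition (2 - t) = 2 * n := fun t ht => by
    rw [Real.smoothTransition.one_of_one_le (by linarith), mul_one]
  have hF2 : ∀ t : ℝ, 2 ≤ t → 2 * n * Real.smoothTransition (2 - t) = 0 := fun t ht => by
    rw [Real.smoothTransition.zero_of_nonpos (by linarith), mul_zero]
  obtain ⟨P, hPF, hP0⟩ := exists_prof hn hF one_pos hF1 (fun t =>
    mul_nonneg (by linarith) (Real.smoothTransition.nonneg _))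
  refine ⟨P, fun t ht => by rw [hPF]; exact hF1 t ht, fun t ht => by rw [hPF]; exact hF2 t ht,
    ?_, ?_⟩
  · have := P.W_left zero_le_one hP0.symm.le
    rw [this]
    norm_num
  intro c hc
  -- decay of `V`
  have hV : ∀ t, 2 ≤ t → P.V t = (2 : ℝ) ^ (n - 1) * P.V 2 * t ^ (-(n - 1)) := by
    intro t ht
    have ht0 : 0 < t := by linarith
    have h1 := P.flux_const (a := 2) (s := t) two_pos ht
      (fun s hs => by rw [hPF]; exact hF2 s hs)
    have h2 : 0 < t ^ (n - 1) := Real.rpow_pos_of_pos ht0 _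
    rw [Real.rpow_neg ht0.le, ← h1]
    field_simp
  have hlim : Tendsto (fun t : ℝ => (2 : ℝ) ^ (n - 1) * P.V 2 * t ^ (-(n - 1))) atTop (𝓝 0) := by
    have := (tendsto_rpow_neg_atTop (y := n - 1) (by linarith)).const_mul
      ((2 : ℝ) ^ (n - 1) * P.V 2)
    rwa [mul_zero] at this
  obtain ⟨T1, hT1⟩ := eventually_atTop.1 (hlim.eventually_le_const (show (0 : ℝ) < c / 4 by
    positivity))
  set T0 := max T1 2 with hT0
  have hVc : ∀ t, T0 ≤ t → P.V t ≤ c / 4 := fun t ht => by
    rw [hV t ((le_max_right _ _).trans ht)]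
    exact hT1 t ((le_max_left _ _).trans ht)
  set M := max (max 1 T0) (2 * |P.W T0| / c) with hM
  have hM1 : 1 ≤ M := (le_max_left _ _).trans (le_max_left _ _)
  have hMT : T0 ≤ M := (le_max_right _ _).trans (le_max_left _ _)
  have hMW : |P.W T0| ≤ c * M / 2 := by
    have : 2 * |P.W T0| / c ≤ M := le_max_right _ _
    rw [div_le_iff₀ hc] at this
    linarith
  have hT02 : 2 ≤ T0 := le_max_right _ _
  refine ⟨M, hM1, ?_⟩
  have hW := (convex_Ici T0).image_sub_le_mul_sub_of_deriv_le (f := P.W) (C := c / 4)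
    P.W_cont.continuousOn
    (fun x _ => (P.W_deriv x).differentiableAt.differentiableWithinAt) (by
      intro x hx
      rw [interior_Ici] at hx
      rw [(P.W_deriv x).deriv]
      exact hVc x (le_of_lt hx)) T0 (show T0 ≤ T0 from le_rfl) (2 * M + 2) (by
      show T0 ≤ 2 * M + 2
      linarith) (by linarith)
  have h5 := le_abs_self (P.W T0)
  nlinarith

end Pool.Agent.H747EB
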