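import Pool.Agent.H747EB.B0

/-!
# EB-CROSS: crossing of the two profiles (helper988)
-/

set_option autoImplicit false
open Set Filter Topology MeasureTheory

namespace Pool.Agent.H747EB

namespace Crossing

/-- `t ^ (n - 1) V t - 2 t ^ n` -/
noncomputable def G {n : ℝ} (P : Prof n) (t : ℝ) : ℝ := t ^ (n - 1) * P.V t - 2 * t ^ n

lemma G_deriv {n : ℝ} (P : Prof n) {t : ℝ} (ht : 0 < t) :
    HasDerivAt (G P) (t ^ (n - 1) * (P.F t - 2 * n)) t := by
  have h1 := (P.flux_deriv ht).sub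
    ((Real.hasDerivAt_rpow_const (p := n) (Or.inl ht.ne')).const_mul 2)
  refine h1.congr_deriv ?_
  ring

lemma G_eq {n : ℝ} (P : Prof n) {t : ℝ} (ht : 0 < t) :
    G P t = t ^ (n - 1) * (P.V t - 2 * t) := by
  have h2 : t ^ (n - 1) = t ^ n / t := Real.rpow_sub_one ht.ne' n
  unfold G
  rw [h2]
  field_simp

lemma V_le {n : ℝ} (P : Prof n) (h1 : ∀ t, P.F t ≤ 2 * n) {t : ℝ} (ht : 0 < t) :
    P.V t ≤ 2 * t := by
  rcases le_or_gt t P.t0 with h | h
  · exact (P.V_left t h).le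
  · have h2 : AntitoneOn (G P) (Icc P.t0 t) := by
      refine antitoneOn_of_deriv_nonpos (convex_Icc _ _)
        (fun x hx => (G_deriv P (P.t0_pos.trans_le hx.1)).continuousAt.continuousWithinAt) ?_ ?_
      · intro x hx
        rw [interior_Icc] at hx
        exact (G_deriv P (P.t0_pos.trans hx.1)).differentiableAt.differentiableWithinAt
      · intro x hx
        rw [interior_Icc] at hx
        rw [(G_deriv P (P.t0_pos.trans hx.1)).deriv]
        exact mul_nonpos_of_nonneg_of_nonpos (Real.rpow_nonneg (P.t0_pos.trans hx.1).le _)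
          (sub_nonpos.2 (h1 x))
    have h3 := h2 ⟨le_rfl, h.le⟩ ⟨h.le, le_rfl⟩ h.le
    rw [G_eq P ht, G_eq P P.t0_pos, P.V_left _ le_rfl, sub_self, mul_zero] at h3
    have h4 : 0 < t ^ (n - 1) := Real.rpow_pos_of_pos ht _
    have h5 : P.V t - 2 * t ≤ 0 := by
      by_contra hc
      push Not at hc
      exact absurd h3 (not_le.2 (mul_pos h4 hc))
    linarith

lemma V_ge {n : ℝ} (P : Prof n) (h1 : ∀ t, t ≤ 1 → P.F t = 2 * n) {t : ℝ} (ht : 0 < t)
    (ht1 : t ≤ 1) : 2 * t ≤ P.V t := by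
  rcases le_or_gt t P.t0 with h | h
  · exact (P.V_left t h).ge
  · have h2 : MonotoneOn (G P) (Icc P.t0 t) := by
      refine monotoneOn_of_deriv_nonneg (convex_Icc _ _)
        (fun x hx => (G_deriv P (P.t0_pos.trans_le hx.1)).continuousAt.continuousWithinAt) ?_ ?_
      · intro x hx
        rw [interior_Icc] at hx
        exact (G_deriv P (P.t0_pos.trans hx.1)).differentiableAt.differentiableWithinAt
      · intro x hx
        rw [interior_Icc] at hx
        rw [(G_deriv P (P.t0_pos.trans hx.1)).deriv, h1 x (hx.2.le.trans ht1), sub_self, mul_zero]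
    have h3 := h2 ⟨le_rfl, h.le⟩ ⟨h.le, le_rfl⟩ h.le
    rw [G_eq P ht, G_eq P P.t0_pos, P.V_left _ le_rfl, sub_self, mul_zero] at h3
    have h4 : 0 < t ^ (n - 1) := Real.rpow_pos_of_pos ht _
    have h5 : 0 ≤ P.V t - 2 * t := by
      by_contra hc
      push Not at hc
      exact absurd h3 (not_le.2 (mul_neg_of_pos_of_neg h4 hc))
    linarith

lemma W_le_sq {n : ℝ} (P : Prof n) (h1 : ∀ t, P.F t ≤ 2 * n) {t : ℝ} (ht : 0 ≤ t) :
    P.W t ≤ t ^ 2 := by
  have h2 : AntitoneOn (fun s => P.W s - s ^ 2) (Ici 0) := by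
    refine antitoneOn_of_deriv_nonpos (convex_Ici 0)
      ((P.W_cont.sub (continuous_pow 2)).continuousOn) ?_ ?_
    · intro x _
      exact ((P.W_deriv x).sub (hasDerivAt_pow 2 x)).differentiableAt.differentiableWithinAt
    · intro x hx
      rw [interior_Ici] at hx
      have h3 : deriv (fun s => P.W s - s ^ 2) x = P.V x - 2 * x := by
        refine (((P.W_deriv x).sub (hasDerivAt_pow 2 x)).congr_deriv ?_).deriv
        simp
      rw [h3]
      linarith [V_le P h1 hx]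
  have h4 := h2 (mem_Ici.2 le_rfl) ht ht
  simp only [P.W_zero] at h4
  linarith

lemma W_ge_sq {n : ℝ} (P : Prof n) (h1 : ∀ t, t ≤ 1 → P.F t = 2 * n) {t : ℝ} (ht : 0 ≤ t)
    (ht1 : t ≤ 1) : t ^ 2 ≤ P.W t := by
  have h2 : MonotoneOn (fun s => P.W s - s ^ 2) (Icc 0 1) := by
    refine monotoneOn_of_deriv_nonneg (convex_Icc 0 1)
      ((P.W_cont.sub (continuous_pow 2)).continuousOn) ?_ ?_
    · intro x _
      exact ((P.W_deriv x).sub (hasDerivAt_pow 2 x)).differentiableAt.differentiableWithinAt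
    · intro x hx
      rw [interior_Icc] at hx
      have h3 : deriv (fun s => P.W s - s ^ 2) x = P.V x - 2 * x := by
        refine (((P.W_deriv x).sub (hasDerivAt_pow 2 x)).congr_deriv ?_).deriv
        simp
      rw [h3]
      linarith [V_ge P h1 hx.1 hx.2.le]
  have h4 := h2 (left_mem_Icc.2 zero_le_one) ⟨ht, ht1⟩ ht
  simp only [P.W_zero] at h4
  linarith

end Crossing

open Crossing in
theorem crossing {n : ℝ} (hn : 1 < n) (P1 P2 : Prof n) {M T : ℝ} (hM : 1 ≤ M) (hT : M + 1 < T)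
    (h1 : ∀ t, P1.F t ≤ 2 * n) (h2 : ∀ t, M + 1 ≤ t → P1.F t = 0) (h3 : P1.W (M + 1) ≤ 1)
    (h4 : ∀ t, t ≤ 1 → P2.F t = 2 * n) (h5 : ∀ t, 2 ≤ t → P2.F t = 0) (h6 : P2.W 1 = 1)
    (h7 : P2.W T < P1.W T) :
    ∃ T1 : ℝ, M + 1 < T1 ∧ T1 < T ∧ P1.W T1 = P2.W T ∧
      ∀ r ∈ Ioo (0 : ℝ) 1, P1.W (T1 * r) < P2.W (T * r) := by
  have hT0 : 0 < T := by linarith
  have ha1 : (1 : ℝ) < P2.W T := by
    rw [← h6]
    exact P2.W_strictMonoOn (mem_Ici.2 zero_le_one) (mem_Ici.2 hT0.le) (by linarith)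
  obtain ⟨T1, ⟨hT1, hT1'⟩, hT1W⟩ : P2.W T ∈ P1.W '' Ioo (M + 1) T :=
    intermediate_value_Ioo hT.le P1.W_cont.continuousOn ⟨by linarith, h7⟩
  have hT10 : 0 < T1 := by linarith
  -- (b)
  have hb : ∀ t, 0 ≤ t → t ≤ M + 1 → P1.W t ≤ P2.W t := by
    intro t ht ht'
    rcases le_or_gt t 1 with h | h
    · exact (W_le_sq P1 h1 ht).trans (W_ge_sq P2 h4 ht h)
    · have e1 : P1.W t ≤ P1.W (M + 1) :=
        P1.W_strictMonoOn.monotoneOn (mem_Ici.2 ht) (mem_Ici.2 (by linarith)) ht'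
      have e2 : P2.W 1 ≤ P2.W t :=
        P2.W_strictMonoOn.monotoneOn (mem_Ici.2 zero_le_one) (mem_Ici.2 ht) h.le
      linarith
  refine ⟨T1, hT1, hT1', hT1W, fun r hr => ?_⟩
  rcases le_or_gt (T1 * r) (M + 1) with hc | hc
  · refine (hb _ (mul_pos hT10 hr.1).le hc).trans_lt ?_
    exact P2.W_strictMonoOn (mem_Ici.2 (mul_pos hT10 hr.1).le) (mem_Ici.2 (mul_pos hT0 hr.1).le)
      (mul_lt_mul_of_pos_right hT1' hr.1)
  -- (d)
  set ra : ℝ := (M + 1) / T1 with hra
  have hra0 : 0 < ra := by positivity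
  have hra1 : T1 * ra = M + 1 := by rw [hra]; field_simp
  have hrar : ra < r := by
    rw [hra, div_lt_iff₀ hT10, mul_comm]
    exact hc
  have hra2 : ra < 1 := hrar.trans hr.2
  let θ : ℝ → ℝ := fun x => P2.W (T * x) - P1.W (T1 * x)
  have hθd : ∀ x, HasDerivAt θ (T * P2.V (T * x) - T1 * P1.V (T1 * x)) x := by
    intro x
    have e1 : HasDerivAt (fun y : ℝ => T * y) T x := by
      simpa using (hasDerivAt_id x).const_mul T
    have e2 : HasDerivAt (fun y : ℝ => T1 * y) T1 x := by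
      simpa using (hasDerivAt_id x).const_mul T1
    have e3 := ((P2.W_deriv (T * x)).comp x e1).sub ((P1.W_deriv (T1 * x)).comp x e2)
    refine e3.congr_deriv ?_
    ring
  have hθc : Continuous θ := continuous_iff_continuousAt.2 fun x => (hθd x).continuousAt
  obtain ⟨B, hB⟩ : ∃ B : ℝ, ∀ x, ra ≤ x →
      x ^ (n - 1) * (T * P2.V (T * x) - T1 * P1.V (T1 * x)) = B := by
    refine ⟨T * (2 ^ (n - 1) * P2.V 2) / T ^ (n - 1) -
      T1 * ((M + 1) ^ (n - 1) * P1.V (M + 1)) / T1 ^ (n - 1), fun x hx => ?_⟩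
    have hx0 : 0 < x := hra0.trans_le hx
    have e0 : M + 1 ≤ T1 * x := by
      rw [← hra1]
      exact mul_le_mul_of_nonneg_left hx hT10.le
    have e1 := P1.flux_const (a := M + 1) (s := T1 * x) (by linarith) e0 h2
    have e2 := P2.flux_const (a := 2) (s := T * x) (by norm_num)
      (by nlinarith [mul_lt_mul_of_pos_right hT1' hx0]) h5
    rw [← e1, ← e2, Real.mul_rpow hT0.le hx0.le, Real.mul_rpow hT10.le hx0.le]
    have e3 : T ^ (n - 1) ≠ 0 := (Real.rpow_pos_of_pos hT0 _).ne'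
    have e4 : T1 ^ (n - 1) ≠ 0 := (Real.rpow_pos_of_pos hT10 _).ne'
    field_simp
  have hθ1 : θ 1 = 0 := by
    simp only [θ, mul_one]
    rw [hT1W, sub_self]
  have hθra : 0 < θ ra := by
    have e1 : P2.W (M + 1) < P2.W (T * ra) := by
      refine P2.W_strictMonoOn (mem_Ici.2 (by linarith)) (mem_Ici.2 (mul_pos hT0 hra0).le) ?_
      rw [← hra1]
      exact mul_lt_mul_of_pos_right hT1' hra0
    have e2 := hb (M + 1) (by linarith) le_rfl
    show 0 < P2.W (T * ra) - P1.W (T1 * ra)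
    rw [hra1]
    linarith
  have hBneg : B < 0 := by
    by_contra hB0
    push Not at hB0
    have e1 : MonotoneOn θ (Icc ra 1) := by
      refine monotoneOn_of_deriv_nonneg (convex_Icc _ _) hθc.continuousOn
        (fun x _ => (hθd x).differentiableAt.differentiableWithinAt) ?_
      intro x hx
      rw [interior_Icc] at hx
      rw [(hθd x).deriv]
      have e2 : 0 < x ^ (n - 1) := Real.rpow_pos_of_pos (hra0.trans hx.1) _
      have e3 := hB x hx.1.le
      by_contra hc'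
      push Not at hc'
      have := mul_neg_of_pos_of_neg e2 hc'
      linarith
    have e4 := e1 ⟨le_rfl, hra2.le⟩ ⟨hra2.le, le_rfl⟩ hra2.le
    linarith
  have hanti : StrictAntiOn θ (Icc ra 1) := by
    refine strictAntiOn_of_deriv_neg (convex_Icc _ _) hθc.continuousOn ?_
    intro x hx
    rw [interior_Icc] at hx
    rw [(hθd x).deriv]
    have e2 : 0 < x ^ (n - 1) := Real.rpow_pos_of_pos (hra0.trans hx.1) _
    have e3 := hB x hx.1.le
    by_contra hc'
    push Not at hc'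
    have := mul_nonneg e2.le hc'
    linarith
  have hfin := hanti ⟨hrar.le, hr.2.le⟩ ⟨hra2.le, le_rfl⟩ hr.2
  rw [hθ1] at hfin
  have : 0 < P2.W (T * r) - P1.W (T1 * r) := hfin
  linarith

end Pool.Agent.H747EB
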