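import Pool.Agent.H747EB.B2
set_option autoImplicit false
open Set Filter Topology MeasureTheory
open scoped ContDiff

namespace Pool.Agent.H747EB

/-- The inverse function of a profile and its forcing as a function of the height. -/
theorem height {n : ℝ} (P : Prof n) {t1 T M : ℝ} (h1 : 0 < t1) (h1' : t1 ≤ P.t0) (hT : t1 < T)
    (hM : t1 < M) (hM' : M < T) (e : ∀ t, M ≤ t → P.F t = 0) :
    ∃ ρ : ℝ → ℝ, ContDiff ℝ ∞ ρ ∧ (∀ t ∈ Icc t1 T, ρ (P.W t) = t) ∧
      (∀ w, t1 ^ 2 ≤ w → w < P.W T → ρ w ∈ Ico t1 T ∧ P.W (ρ w) = w) ∧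
      (∀ w, w ≤ t1 ^ 2 → P.F (ρ w) = 2 * n) ∧ (∀ w, P.W M ≤ w → P.F (ρ w) = 0) := by
  obtain ⟨ρ, hρ, hm, hi⟩ := exists_inverse P h1 h1' hT.le
  have hW1 : P.W t1 = t1 ^ 2 := P.W_left h1.le h1'
  refine ⟨ρ, hρ, hi, ?_, ?_, ?_⟩
  · intro w hw hw'
    have hc : ContinuousOn P.W (Icc t1 T) := P.W_cont.continuousOn
    obtain ⟨t, ht, rfl⟩ := intermediate_value_Icc hT.le hc ⟨by rw [hW1]; exact hw, hw'.le⟩
    rw [hi t ht]
    refine ⟨⟨ht.1, ?_⟩, rfl⟩
    rcases ht.2.eq_or_lt with h | h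
    · rw [h] at hw'; exact absurd hw' (lt_irrefl _)
    · exact h
  · intro w hw
    apply P.F_left
    have h2 : ρ w ≤ ρ (P.W t1) := hm.monotone (by rw [hW1]; exact hw)
    rw [hi t1 ⟨le_refl _, hT.le⟩] at h2
    exact h2.trans h1'
  · intro w hw
    apply e
    have h2 : ρ (P.W M) ≤ ρ w := hm.monotone hw
    rwa [hi M ⟨hM.le, hM'.le⟩] at h2

/-- As `build`, with a nonnegative bounded nonlinearity. -/
theorem build_nonneg {n : ℝ} (P1 P2 : Prof n) {T1 T2 M1 M2 : ℝ} (hT1 : 0 < T1)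
    (hT : T1 < T2) (ha : P1.W T1 = P2.W T2)
    (hlt : ∀ r ∈ Ioo (0 : ℝ) 1, P1.W (T1 * r) < P2.W (T2 * r))
    (hF : ∀ s t, 0 < s → s < T1 → 0 < t → t < T2 → P1.W s = P2.W t → P1.F s ≤ P2.F t)
    (hM1 : 0 < M1) (hM1' : M1 < T1) (e1 : ∀ t, M1 ≤ t → P1.F t = 0)
    (hM2 : 0 < M2) (hM2' : M2 < T2) (e2 : ∀ t, M2 ≤ t → P2.F t = 0) :
    ∃ f : ℝ → ℝ → ℝ, ContDiff ℝ ∞ (Function.uncurry f) ∧
      (∀ r u, 0 ≤ f r u) ∧
      (∀ r u, 0 ≤ r → ∃ d, d ≤ 0 ∧ HasDerivAt (fun t => f t u) d r) ∧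
      (∀ r ∈ Ioo (0 : ℝ) 1, f r (P1.W T1 - P1.W (T1 * r)) = P1.F (T1 * r)) ∧
      (∀ r ∈ Ioo (0 : ℝ) 1, f r (P1.W T1 - P2.W (T2 * r)) = P2.F (T2 * r)) := by
  have hT2 : 0 < T2 := hT1.trans hT
  -- the small parameter
  obtain ⟨t1, h1, ha1, ha2, hb1, hb2⟩ : ∃ t1 : ℝ, 0 < t1 ∧ t1 ≤ P1.t0 ∧ t1 ≤ P2.t0 ∧ t1 < M1 ∧
      t1 < M2 := by
    refine ⟨min (min P1.t0 P2.t0) (min M1 M2) / 2, ?_, ?_, ?_, ?_, ?_⟩
    all_goals
      have hpos : 0 < min (min P1.t0 P2.t0) (min M1 M2) :=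
        lt_min (lt_min P1.t0_pos P2.t0_pos) (lt_min hM1 hM2)
      have q1 : min (min P1.t0 P2.t0) (min M1 M2) ≤ P1.t0 := (min_le_left _ _).trans (min_le_left _ _)
      have q2 : min (min P1.t0 P2.t0) (min M1 M2) ≤ P2.t0 := (min_le_left _ _).trans (min_le_right _ _)
      have q3 : min (min P1.t0 P2.t0) (min M1 M2) ≤ M1 := (min_le_right _ _).trans (min_le_left _ _)
      have q4 : min (min P1.t0 P2.t0) (min M1 M2) ≤ M2 := (min_le_right _ _).trans (min_le_right _ _)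
      linarith
  obtain ⟨ρ1, r1, i1, j1, k1, l1⟩ := height P1 h1 ha1 (hb1.trans hM1') hb1 hM1' e1
  obtain ⟨ρ2, r2, i2, j2, k2, l2⟩ := height P2 h1 ha2 (hb2.trans hM2') hb2 hM2' e2
  set α := P1.W T1 with hα
  let G1 : ℝ → ℝ := fun w => P1.F (ρ1 w)
  let G2 : ℝ → ℝ := fun w => P2.F (ρ2 w)
  let R1 : ℝ → ℝ := fun w => (ρ1 w / T1) ^ 2
  let R2 : ℝ → ℝ := fun w => (ρ2 w / T2) ^ 2
  have hG1 : ContDiff ℝ ∞ G1 := P1.F_smooth.comp r1
  have hG2 : ContDiff ℝ ∞ G2 := P2.F_smooth.comp r2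
  have hR1 : ContDiff ℝ ∞ R1 := (r1.div_const T1).pow 2
  have hR2 : ContDiff ℝ ∞ R2 := (r2.div_const T2).pow 2
  -- the separation of the curves
  have hsep : ∀ w, t1 ^ 2 ≤ w → w < α → R2 w < R1 w := by
    intro w hw hw'
    obtain ⟨⟨p1, p2⟩, p3⟩ := j1 w hw hw'
    obtain ⟨⟨q1, q2⟩, q3⟩ := j2 w hw (by rw [← ha]; exact hw')
    have hs : 0 < ρ1 w := h1.trans_le p1
    have ht : 0 < ρ2 w := h1.trans_le q1
    have hlt' : ρ2 w / T2 < ρ1 w / T1 := by
      by_contra hc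
      push Not at hc
      have hr : ρ2 w / T2 ∈ Ioo (0 : ℝ) 1 := ⟨by positivity, (div_lt_one hT2).2 q2⟩
      have h2 := hlt _ hr
      have h3 : T2 * (ρ2 w / T2) = ρ2 w := by field_simp
      rw [h3, q3] at h2
      have h4 : P1.W (ρ1 w) ≤ P1.W (T1 * (ρ2 w / T2)) := by
        refine P1.W_strictMonoOn.monotoneOn (mem_Ici.2 hs.le)
          (mem_Ici.2 (by positivity)) ?_
        rw [div_le_iff₀ hT1] at hc
        linarith
      rw [p3] at h4
      linarith
    exact pow_lt_pow_left₀ hlt' (by positivity) two_ne_zero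
  have hle : ∀ w, G1 w ≤ G2 w := by
    intro w
    rcases le_or_gt w (t1 ^ 2) with hw | hw
    · simp only [G1, G2]; rw [k1 w hw, k2 w hw]
    · rcases lt_or_ge w α with hw' | hw'
      · obtain ⟨⟨p1, p2⟩, p3⟩ := j1 w hw.le hw'
        obtain ⟨⟨q1, q2⟩, q3⟩ := j2 w hw.le (by rw [← ha]; exact hw')
        exact hF _ _ (h1.trans_le p1) p2 (h1.trans_le q1) q2 (by rw [p3, q3])
      · have m1 : P1.W M1 ≤ w :=
          (P1.W_strictMonoOn.monotoneOn (mem_Ici.2 hM1.le) (mem_Ici.2 hT1.le) hM1'.le).trans hw'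
        simp only [G1]
        rw [l1 w m1]
        exact P2.F_nonneg _
  have hG1n : ∀ w, 0 ≤ G1 w := fun w => P1.F_nonneg _
  let χ : ℝ → ℝ → ℝ := fun r w => Real.smoothTransition ((R1 w - r ^ 2) / (R1 w - R2 w))
  let f : ℝ → ℝ → ℝ := fun r u => G1 (α - u) + (G2 (α - u) - G1 (α - u)) * χ r (α - u)
  have hst : ContDiff ℝ ∞ Real.smoothTransition := Real.smoothTransition.contDiff
  -- smoothness in (r, w)
  have hE : ContDiff ℝ ∞ (fun p : ℝ × ℝ => (G2 p.2 - G1 p.2) * χ p.1 p.2) := by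
    rw [contDiff_iff_contDiffAt]
    rintro ⟨r, w⟩
    rcases lt_or_ge w (t1 ^ 2) with hw | hw
    · have : (fun p : ℝ × ℝ => (G2 p.2 - G1 p.2) * χ p.1 p.2) =ᶠ[𝓝 (r, w)] fun _ => 0 := by
        have ho : ∀ᶠ p : ℝ × ℝ in 𝓝 (r, w), p.2 < t1 ^ 2 :=
          (continuous_snd.continuousAt (x := (r, w))).eventually_lt continuousAt_const hw
        filter_upwards [ho] with p hp
        simp only [G1, G2]
        rw [k1 _ hp.le, k2 _ hp.le, sub_self, zero_mul]
      exact contDiffAt_const.congr_of_eventuallyEq this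
    · rcases lt_or_ge w α with hw' | hw'
      · have hden : R1 w - R2 w ≠ 0 := (sub_pos.2 (hsep w hw hw')).ne'
        have s2 : ContDiffAt ℝ ∞ (fun p : ℝ × ℝ => p.2) (r, w) := contDiff_snd.contDiffAt
        have s1 : ContDiffAt ℝ ∞ (fun p : ℝ × ℝ => p.1) (r, w) := contDiff_fst.contDiffAt
        have t1' : ContDiffAt ℝ ∞ (fun p : ℝ × ℝ => G2 p.2 - G1 p.2) (r, w) :=
          (hG2.comp contDiff_snd).contDiffAt.sub (hG1.comp contDiff_snd).contDiffAt
        have t2' : ContDiffAt ℝ ∞ (fun p : ℝ × ℝ => (R1 p.2 - p.1 ^ 2) / (R1 p.2 - R2 p.2))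
            (r, w) :=
          ContDiffAt.div (((hR1.comp contDiff_snd).contDiffAt).sub (s1.pow 2))
            (((hR1.comp contDiff_snd).contDiffAt).sub ((hR2.comp contDiff_snd).contDiffAt)) hden
        exact t1'.mul (hst.contDiffAt.comp (r, w) t2')
      · have m1 : P1.W M1 < w :=
          (P1.W_strictMonoOn (mem_Ici.2 hM1.le) (mem_Ici.2 hT1.le) hM1').trans_le hw'
        have m2 : P2.W M2 < w :=
          (P2.W_strictMonoOn (mem_Ici.2 hM2.le) (mem_Ici.2 hT2.le) hM2').trans_le (ha ▸ hw')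
        have : (fun p : ℝ × ℝ => (G2 p.2 - G1 p.2) * χ p.1 p.2) =ᶠ[𝓝 (r, w)] fun _ => 0 := by
          have ho : ∀ᶠ p : ℝ × ℝ in 𝓝 (r, w), P1.W M1 < p.2 :=
            continuousAt_const.eventually_lt (continuous_snd.continuousAt (x := (r, w))) m1
          have ho' : ∀ᶠ p : ℝ × ℝ in 𝓝 (r, w), P2.W M2 < p.2 :=
            continuousAt_const.eventually_lt (continuous_snd.continuousAt (x := (r, w))) m2
          filter_upwards [ho, ho'] with p hp hp'
          simp only [G1, G2]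
          rw [l1 _ hp.le, l2 _ hp'.le, sub_self, zero_mul]
        exact contDiffAt_const.congr_of_eventuallyEq this
  have hf : ContDiff ℝ ∞ (Function.uncurry f) := by
    have h2 : ContDiff ℝ ∞ (fun p : ℝ × ℝ => ((p.1, α - p.2) : ℝ × ℝ)) :=
      contDiff_fst.prodMk (contDiff_const.sub contDiff_snd)
    have h3 : ContDiff ℝ ∞ (fun p : ℝ × ℝ => G1 (α - p.2)) :=
      hG1.comp (contDiff_const.sub contDiff_snd)
    exact h3.add (hE.comp h2)
  have hval : ∀ w, 0 < w → w < α → ∀ r, 0 < r → ρ1 w = T1 * r → t1 ^ 2 ≤ w → χ r w = 0 := by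
    intro w _ _ r _ h2 _
    simp only [χ, R1]
    rw [h2]
    have : (T1 * r / T1) ^ 2 - r ^ 2 = 0 := by field_simp; ring
    rw [this, zero_div]
    exact Real.smoothTransition.zero
  refine ⟨f, hf, ?_, ?_, ?_, ?_⟩
  · intro r u
    have h2 := hG1n (α - u)
    have h3 := hle (α - u)
    have h4 : 0 ≤ χ r (α - u) := Real.smoothTransition.nonneg _
    simp only [f]
    nlinarith [mul_nonneg (sub_nonneg.2 h3) h4]
  · intro r u hr
    set w := α - u with hw
    by_cases hg : G2 w - G1 w = 0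
    · refine ⟨0, le_refl _, ?_⟩
      have : (fun t => f t u) = fun _ => G1 w := by
        funext t
        simp only [f]
        rw [← hw, hg]; ring
      rw [this]
      exact hasDerivAt_const _ _
    · have hw1 : t1 ^ 2 ≤ w := by
        by_contra h2
        push Not at h2
        apply hg
        simp only [G1, G2]
        rw [k1 _ h2.le, k2 _ h2.le, sub_self]
      have hw2 : w < α := by
        by_contra h2
        push Not at h2
        apply hg
        have m1 : P1.W M1 ≤ w :=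
          (P1.W_strictMonoOn.monotoneOn (mem_Ici.2 hM1.le) (mem_Ici.2 hT1.le) hM1'.le).trans h2
        have m2 : P2.W M2 ≤ w :=
          (P2.W_strictMonoOn.monotoneOn (mem_Ici.2 hM2.le) (mem_Ici.2 hT2.le) hM2'.le).trans
            (ha ▸ h2)
        simp only [G1, G2]
        rw [l1 _ m1, l2 _ m2, sub_self]
      have hden : 0 < R1 w - R2 w := sub_pos.2 (hsep w hw1 hw2)
      have hin : HasDerivAt (fun t : ℝ => (R1 w - t ^ 2) / (R1 w - R2 w))
          (-(2 * r) / (R1 w - R2 w)) r := by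
        have h2 := ((hasDerivAt_pow 2 r).const_sub (R1 w)).div_const (R1 w - R2 w)
        refine h2.congr_deriv ?_
        simp
      have hmono : 0 ≤ deriv Real.smoothTransition ((R1 w - r ^ 2) / (R1 w - R2 w)) :=
        Real.smoothTransition.monotone.deriv_nonneg
      have hd1 : DifferentiableAt ℝ Real.smoothTransition ((R1 w - r ^ 2) / (R1 w - R2 w)) :=
        (hst.differentiable (by simp)) _
      have h5 := hd1.hasDerivAt.comp r hin
      have h6 := (h5.const_mul (G2 w - G1 w)).const_add (G1 w)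
      refine ⟨_, ?_, h6⟩
      have h7 : 0 ≤ G2 w - G1 w := sub_nonneg.2 (hle w)
      have h8 : -(2 * r) / (R1 w - R2 w) ≤ 0 := div_nonpos_of_nonpos_of_nonneg (by linarith) hden.le
      have h9 : deriv Real.smoothTransition ((R1 w - r ^ 2) / (R1 w - R2 w)) *
          (-(2 * r) / (R1 w - R2 w)) ≤ 0 := mul_nonpos_of_nonneg_of_nonpos hmono h8
      exact mul_nonpos_of_nonneg_of_nonpos h7 h9
  · intro r hr
    have hTr : 0 < T1 * r := mul_pos hT1 hr.1
    have hTr' : T1 * r < T1 := by nlinarith [hr.2]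
    have ew : α - (α - P1.W (T1 * r)) = P1.W (T1 * r) := by ring
    simp only [f]
    rw [ew]
    rcases lt_or_ge (T1 * r) t1 with hc | hc
    · have hw : P1.W (T1 * r) ≤ t1 ^ 2 := by
        rw [P1.W_left hTr.le (hc.le.trans ha1)]
        exact pow_le_pow_left₀ hTr.le hc.le 2
      simp only [G1, G2]
      rw [k1 _ hw, k2 _ hw, P1.F_left _ (hc.le.trans ha1)]
      ring
    · have hi : ρ1 (P1.W (T1 * r)) = T1 * r := i1 _ ⟨hc, hTr'.le⟩
      have hchi : χ r (P1.W (T1 * r)) = 0 := by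
        simp only [χ, R1]
        rw [hi]
        have : (T1 * r / T1) ^ 2 - r ^ 2 = 0 := by field_simp; ring
        rw [this, zero_div]
        exact Real.smoothTransition.zero
      rw [hchi, mul_zero, add_zero]
      simp only [G1]
      rw [hi]
  · intro r hr
    have hTr : 0 < T2 * r := mul_pos hT2 hr.1
    have hTr' : T2 * r < T2 := by nlinarith [hr.2]
    have ew : α - (α - P2.W (T2 * r)) = P2.W (T2 * r) := by ring
    simp only [f]
    rw [ew]
    rcases lt_or_ge (T2 * r) t1 with hc | hc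
    · have hw : P2.W (T2 * r) ≤ t1 ^ 2 := by
        rw [P2.W_left hTr.le (hc.le.trans ha2)]
        exact pow_le_pow_left₀ hTr.le hc.le 2
      simp only [G1, G2]
      rw [k1 _ hw, k2 _ hw, P2.F_left _ (hc.le.trans ha2)]
      ring
    · have hi : ρ2 (P2.W (T2 * r)) = T2 * r := i2 _ ⟨hc, hTr'.le⟩
      have hw1 : t1 ^ 2 ≤ P2.W (T2 * r) := by
        rw [← P2.W_left h1.le ha2]
        exact P2.W_strictMonoOn.monotoneOn (mem_Ici.2 h1.le) (mem_Ici.2 hTr.le) hc
      have hw2 : P2.W (T2 * r) < α := by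
        rw [ha]
        exact P2.W_strictMonoOn (mem_Ici.2 hTr.le) (mem_Ici.2 hT2.le) hTr'
      have hden : R1 (P2.W (T2 * r)) - R2 (P2.W (T2 * r)) ≠ 0 :=
        (sub_pos.2 (hsep _ hw1 hw2)).ne'
      have hchi : χ r (P2.W (T2 * r)) = 1 := by
        have e3 : r ^ 2 = R2 (P2.W (T2 * r)) := by
          simp only [R2]
          rw [hi]
          field_simp
        simp only [χ]
        rw [e3, div_self hden]
        exact Real.smoothTransition.one
      rw [hchi, mul_one]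
      simp only [G1, G2]
      rw [hi]
      ring

end Pool.Agent.H747EB
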